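import Mathlib
import Pool.Agent.L0h28.Aec.TreeDefs
import Pool.Agent.L0h28.Aec.Link
import Pool.Agent.L0h28.Aec.Final
import Pool.Agent.H524R3.Defs
import Pool.Agent.H524R3.ExpDefs

set_option autoImplicit false

open H524R3 Pool.Agent.L0h28.Aec

namespace Pool.Agent.Results.MP_1d444f_gt.HomologySphere

/-- The asymptotic expansion conjecture fails for G = SU(2) and an integral homology sphere. Let M be the
closed oriented 3-manifold obtained by surgery on the plumbing link of the tree sphereTree; up to orientation
it is the result of surgery with coefficient -1 or 1 on the knot T(2,7) # T(2,7) # -T(3,5). The determinant of the linking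
matrix is a unit, so that M is an integral homology sphere. The invariants Z_k(M), r = k + 2, satisfy
c r log r ≤ |Z_k(M)| ≤ C r log r with c > 0 for all large multiples r of 840, and for every choice of phases
ω k of absolute value 1 (in particular in every 2-framing of M) the sequence ω k * Z_k(M) has no asymptotic
expansion ∑_j exp (2 π i r c_j) r^(d_j) b_j (1 + ∑_l a_{j,l} r^(-l/2)), with any finite family of real
phases c_j and real exponents d_j. -/
theorem result :
    IsUnit (linkingMatrix sphereTree).det ∧
    (∃ c C : ℝ, 0 < c ∧ 0 < C ∧ ∃ n₀ : ℕ, ∀ n : ℕ, n₀ ≤ n →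
      c * ((840 * n : ℕ) : ℝ) * Real.log (840 * n : ℕ) ≤ ‖sphereTree.wrt (840 * n)‖ ∧
      ‖sphereTree.wrt (840 * n)‖ ≤ C * ((840 * n : ℕ) : ℝ) * Real.log (840 * n : ℕ)) ∧
    ∀ ω : ℕ → ℂ, (∀ k, ‖ω k‖ = 1) → ¬ HasExpansion 2 (fun k => ω k * sphereTree.wrt (k + 2)) :=
  ⟨isUnit_det, wrt_growth, no_expansion⟩

end Pool.Agent.Results.MP_1d444f_gt.HomologySphere
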